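import Pool.Agent.Helper97.Nag.Goals
import Pool.Agent.Helper96.Tate.THC

/-! # Packet NAG-EXT (MP_d3128a_ag) -/

set_option autoImplicit false

namespace Pool.Agent.Helper87.Nag.EXT

open Pool.Agent.Helper97.Tate Pool.Agent.Helper97.Nag
open Pool.Agent.Helper96.Tate.THC (tri_spec qe_bounds)

theorem coeff_ThG (r p κ : ℕ) (ρ : ℤ) (e N : ℕ) (h : HH r p) :
    (PowerSeries.coeff N (ThG r p κ ρ e)).coeff h =
      ∑ a ∈ Finset.Icc (-(N : ℤ)) (N + 1),
        if qe κ ρ a = N ∧ ((ρ + κ * a, fun _ => (e : ℤ) * a) : HH r p) = h then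
          (-1 : ℚ) ^ ((r * p * e : ℕ) * a) else 0 := by
  rw [ThG, PowerSeries.coeff_mk, AddMonoidAlgebra.coeff_sum, Finsupp.finsetSum_apply]
  refine Finset.sum_congr rfl fun a _ => ?_
  by_cases h1 : qe κ ρ a = (N : ℤ)
  · rw [if_pos h1, AddMonoidAlgebra.coeff_single, Finsupp.single_apply]
    by_cases h2 : ((ρ + κ * a, fun _ => (e : ℤ) * a) : HH r p) = h
    · rw [if_pos h2, if_pos ⟨h1, h2⟩]
    · rw [if_neg h2, if_neg fun h3 => h2 h3.2]
  · rw [if_neg h1, if_neg fun h3 => h1 h3.1]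
    rfl

theorem coeff_at (r p κ : ℕ) (ρ e N : ℕ) (hκ : 1 ≤ κ) (hρ : ρ < κ) (a : ℤ)
    (ha : qe κ ρ a = N) :
    (PowerSeries.coeff N (ThG r p κ ρ e)).coeff ((ρ : ℤ) + κ * a, fun _ => (e : ℤ) * a) =
      (-1 : ℚ) ^ ((r * p * e : ℕ) * a) := by
  rw [coeff_ThG, Finset.sum_eq_single a]
  · rw [if_pos ⟨ha, rfl⟩]
  · intro b _ hb
    rw [if_neg]
    rintro ⟨-, h2⟩
    have h3 : (ρ : ℤ) + κ * b = (ρ : ℤ) + κ * a := congrArg Prod.fst h2
    have h4 : (κ : ℤ) * b = κ * a := add_left_cancel h3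
    exact hb (mul_left_cancel₀ (by exact_mod_cast (show κ ≠ 0 by omega)) h4)
  · intro h1
    exfalso
    apply h1
    have h2 := qe_bounds κ ρ a (by positivity) (by exact_mod_cast hρ)
    rw [ha] at h2
    rw [Finset.mem_Icc]
    constructor
    · linarith [h2.2]
    · linarith [h2.1]

theorem sum_ww (k r p : ℕ) (Om eta : ℝ) (hr : 1 ≤ r) (hk : 1 ≤ k) (hrp : r * p = k ^ 2) :
    ∑ i : Fin r × Fin p, ww k r p Om eta (i.1 : ℕ) = Om := by
  rw [Fintype.sum_prod_type]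
  simp only [Finset.sum_const, Finset.card_univ, Fintype.card_fin, nsmul_eq_mul]
  have hr0 : (r : ℝ) ≠ 0 := by positivity
  have hk0 : (k : ℝ) ≠ 0 := by positivity
  have h1 : ∑ i : Fin r, ((i : ℕ) : ℝ) = r * (r - 1) / 2 := by
    rw [Fin.sum_univ_eq_sum_range (fun i => (i : ℝ)) r]
    have h2 := Finset.sum_range_id_mul_two r
    have h3 : ((∑ i ∈ Finset.range r, i : ℕ) : ℝ) * 2 = r * (r - 1) := by
      have h4 : ((∑ i ∈ Finset.range r, i) * 2 : ℕ) = r * (r - 1) := h2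
      have h5 := congrArg (Nat.cast : ℕ → ℝ) h4
      rw [Nat.cast_mul, Nat.cast_mul, Nat.cast_sub hr] at h5
      simpa using h5
    rw [Nat.cast_sum] at h3
    linarith
  have h2 : ∀ i : Fin r, (p : ℝ) * ww k r p Om eta (i : ℕ) =
      p * ((Om + p * (r - 1) / 2) / k ^ 2) - p / r * ((i : ℕ) : ℝ) := by
    intro i
    rw [ww, wx]
    field_simp
    ring
  have h5 : ∑ x : Fin r, (p : ℝ) / r * ((x : ℕ) : ℝ) = p / r * (r * (r - 1) / 2) := by
    rw [← Finset.mul_sum, h1]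
  rw [Finset.sum_congr rfl fun i _ => h2 i, Finset.sum_sub_distrib, h5]
  simp only [Finset.sum_const, Finset.card_univ, Fintype.card_fin, nsmul_eq_mul]
  have h3 : (r : ℝ) * p = (k : ℝ) ^ 2 := by exact_mod_cast hrp
  have h4 : (r : ℝ) * (p * ((Om + p * (r - 1) / 2) / k ^ 2)) = Om + p * (r - 1) / 2 := by
    rw [← mul_assoc, h3]
    field_simp
  rw [h4]
  field_simp
  ring

theorem t : S_EXT := by
  intro k r p Om eta hr hp hrp hk κ ρ e l hκ hρ C0 hC0
  have hρ0 : (0 : ℤ) ≤ ρ := by positivity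
  have hρ1 : (ρ : ℤ) < κ := by exact_mod_cast hρ
  refine ⟨fun N h hh => ?_, fun a => ⟨?_, ?_, ?_⟩⟩
  · rw [coeff_ThG] at hh
    obtain ⟨a, -, ha⟩ := Finset.exists_ne_zero_of_sum_ne_zero hh
    rw [Ne, ite_eq_right_iff, Classical.not_imp] at ha
    obtain ⟨⟨h1, h2⟩, -⟩ := ha
    refine ⟨a, h2.symm, h1, ?_⟩
    rw [← h2]
    exact coeff_at r p κ ρ e N hκ hρ a h1
  · have h1 := qe_bounds κ ρ a hρ0 hρ1
    rcases le_or_gt a 0 with h2 | h2
    · linarith [h1.2]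
    · linarith [h1.1]
  · apply coeff_at r p κ ρ e _ hκ hρ a
    have h1 := qe_bounds κ ρ a hρ0 hρ1
    have h3 : 0 ≤ qe κ ρ a := by
      rcases le_or_gt a 0 with h2 | h2
      · linarith [h1.2]
      · linarith [h1.1]
    exact (Int.toNat_of_nonneg h3).symm
  · have hr0 : (r : ℝ) ≠ 0 := by positivity
    have hk0 : (k : ℝ) ≠ 0 := by positivity
    have hκ0 : (κ : ℝ) ≠ 0 := by positivity
    have h1 : bH k r p Om eta l ((ρ : ℤ) + κ * a, fun _ => (e : ℤ) * a) =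
        ((ρ : ℝ) + κ * a) * (wx k r p Om eta 0 - l / r) + e * a * Om := by
      show (((ρ : ℤ) + κ * a : ℤ) : ℝ) * wx k r p Om eta l +
        ∑ i : Fin r × Fin p, (((e : ℤ) * a : ℤ) : ℝ) * ww k r p Om eta (i.1 : ℕ) = _
      rw [← Finset.mul_sum, sum_ww k r p Om eta hr hk hrp]
      push_cast
      rw [wx, wx]
      push_cast
      ring
    have h2 : ((qe κ ρ a : ℤ) : ℝ) = ρ * a + κ * ((a : ℝ) * (a - 1) / 2) := by
      have h3 := tri_spec a
      have h4 : (2 : ℝ) * ((a * (a - 1) / 2 : ℤ) : ℝ) = a * (a - 1) := by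
        exact_mod_cast h3
      rw [qe]
      push_cast
      have h5 : ((a * (a - 1) / 2 : ℤ) : ℝ) = a * (a - 1) / 2 := by linarith
      rw [h5]
    rw [h1, h2, hC0]
    push_cast
    field_simp
    ring

end Pool.Agent.Helper87.Nag.EXT
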